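import Pool.Agent.Lib.MP_7eef47_al.C.Undist

set_option autoImplicit false

namespace Pool.Agent.Lib.MP_7eef47_al.C

open Classical Pool.Agent.Lib.MP_7eef47_al.U

/-- Walls with finite rotation groups. -/
structure RotData (G Ω : Type) [Group G] [MulAction G Ω] where
  N : G → Ω → Bool
  N_smul : ∀ g x y r, N (g * x) (g • r) = N (g * y) (g • r) ↔ N x r = N y r
  fin : ∀ x y, {r | N x r ≠ N y r}.Finite
  Rot : Ω → Subgroup G
  Rot_fin : ∀ r, (Rot r : Set G).Finite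
  Rot_smul : ∀ g r x, x ∈ Rot (g • r) ↔ g⁻¹ * x * g ∈ Rot r
  gens : Set G
  gens_fin : gens.Finite
  A : G → Subgroup G
  A_self : ∀ s ∈ gens, s ∈ A s
  A_sub : ∀ s ∈ gens, ∀ t ∈ A s, t ≠ 1 → t ∈ gens ∧ A t = A s
  Rot_gen : ∀ s ∈ gens, ∀ r, N 1 r ≠ N s r → Rot r = A s
  step : ∀ x, x ≠ 1 → ∃ s ∈ gens, (∃ r, N 1 r ≠ N s r) ∧ ∀ r, N 1 r ≠ N s r → N 1 r ≠ N x r

namespace RotData

variable {G Ω : Type} [Group G] [MulAction G Ω] (D : RotData G Ω)

/-- The walls between two points. -/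
noncomputable def sep (x y : G) : Finset Ω := (D.fin x y).toFinset

theorem mem_sep {x y : G} {r : Ω} : r ∈ D.sep x y ↔ D.N x r ≠ D.N y r := by simp [sep]

theorem N_rel (g x y : G) (r : Ω) :
    D.N (g * x) r = D.N (g * y) r ↔ D.N x (g⁻¹ • r) = D.N y (g⁻¹ • r) := by
  rw [← D.N_smul g x y (g⁻¹ • r), smul_inv_smul]

/-- The number of walls between two points. -/
noncomputable def len (x y : G) : ℕ := (D.sep x y).card

theorem len_self (x : G) : D.len x x = 0 := by simp [len, sep]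

theorem len_comm (x y : G) : D.len x y = D.len y x := by simp [len, sep, ne_comm]

theorem len_tri (x y z : G) : D.len x z ≤ D.len x y + D.len y z := by
  refine (Finset.card_le_card (t := D.sep x y ∪ D.sep y z) fun r => ?_).trans
    (Finset.card_union_le _ _)
  simp only [Finset.mem_union, mem_sep]
  cases D.N x r <;> cases D.N y r <;> cases D.N z r <;> simp

theorem len_mul (g x y : G) : D.len (g * x) (g * y) = D.len x y :=
  (Finset.card_bij (fun r _ => g • r) (fun r hr => by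
      rw [mem_sep] at hr ⊢; exact (D.N_smul g x y r).not.2 hr)
    (fun a _ b _ e => MulAction.injective g e)
    fun r hr => ⟨g⁻¹ • r, D.mem_sep.2 ((D.N_rel g x y r).not.1 (D.mem_sep.1 hr)), by simp⟩).symm

theorem len_add_le (x y z : G) :
    D.len x y + D.len y z ≤ D.len x z + 2 * (D.sep x y ∩ D.sep y z).card := by
  have h1 := Finset.card_union_add_card_inter (D.sep x y) (D.sep y z)
  have h2 : D.sep x y ∪ D.sep y z ⊆ D.sep x z ∪ (D.sep x y ∩ D.sep y z) := by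
    intro r
    simp only [Finset.mem_union, Finset.mem_inter, mem_sep]
    cases D.N x r <;> cases D.N y r <;> cases D.N z r <;> simp
  have h3 := (Finset.card_le_card h2).trans (Finset.card_union_le _ _)
  unfold len
  omega

theorem step' {x y : G} (h : x ≠ y) : ∃ s ∈ D.gens, (∃ r, D.N x r ≠ D.N (x * s) r) ∧
    (∀ r, D.N x r ≠ D.N (x * s) r → D.N x r ≠ D.N y r) ∧ D.len (x * s) y < D.len x y := by
  obtain ⟨s, hs, ⟨r, hr⟩, h2⟩ := D.step (x⁻¹ * y) fun e => h (inv_mul_eq_one.1 e)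
  have a1 : D.N x (x • r) ≠ D.N (x * s) (x • r) := by
    have := (D.N_smul x 1 s r).not.2 hr
    rwa [mul_one] at this
  have a2 : ∀ r, D.N x r ≠ D.N (x * s) r → D.N x r ≠ D.N y r := fun r hr => by
    have b1 := (D.N_rel x 1 s r).not
    have b2 := (D.N_rel x 1 (x⁻¹ * y) r).not
    rw [mul_one] at b1 b2
    rw [mul_inv_cancel_left] at b2
    exact b2.2 (h2 _ (b1.1 hr))
  refine ⟨s, hs, ⟨_, a1⟩, a2, Finset.card_lt_card ⟨fun t => ?_, fun h' => ?_⟩⟩
  · have := a2 t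
    simp only [mem_sep]
    revert this
    cases D.N x t <;> cases D.N y t <;> cases D.N (x * s) t <;> simp
  · have b1 := D.mem_sep.1 (h' (D.mem_sep.2 (a2 _ a1)))
    have b2 := a2 _ a1
    revert a1 b1 b2
    cases D.N x (x • r) <;> cases D.N y (x • r) <;> cases D.N (x * s) (x • r) <;> simp

theorem ball_finite (n : ℕ) : {g | D.len 1 g ≤ n}.Finite := by
  induction n with
  | zero =>
    refine (Set.finite_singleton 1).subset fun g hg => ?_
    by_contra h
    obtain ⟨s, -, -, -, h1⟩ := D.step' (Ne.symm h)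
    have : D.len 1 g ≤ 0 := hg
    omega
  | succ n ih =>
    refine ((D.gens_fin.image2 (· * ·) ih).insert 1).subset fun g hg => ?_
    by_cases h : g = 1
    · exact Or.inl h
    obtain ⟨s, hs, -, -, h1⟩ := D.step' (Ne.symm h)
    have h2 : D.len 1 g ≤ n + 1 := hg
    refine Or.inr ⟨s, hs, s⁻¹ * g, ?_, by simp⟩
    show D.len 1 (s⁻¹ * g) ≤ n
    rw [← D.len_mul s, mul_one, mul_inv_cancel_left]
    rw [one_mul] at h1
    omega

theorem rot_le_iff {H : Subgroup G} {g : G} (hg : g ∈ H) (r : Ω) :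
    D.Rot (g • r) ≤ H ↔ D.Rot r ≤ H := by
  have key : ∀ g ∈ H, ∀ r, D.Rot r ≤ H → D.Rot (g • r) ≤ H := fun g hg r h x hx => by
    have := mul_mem (mul_mem hg (h ((D.Rot_smul g r x).1 hx))) (inv_mem hg)
    simpa [mul_assoc] using this
  refine ⟨fun h => ?_, key g hg r⟩
  simpa using key _ (inv_mem hg) _ h

/-- `u` crosses walls of `H` only as a rotation around them. -/
def Good (H : Subgroup G) (u : G) : Prop :=
  ∀ r, D.Rot r ≤ H → D.N 1 r ≠ D.N u r → u ∈ D.Rot r ∧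
    ∀ v ∈ D.Rot r, ∀ r', D.Rot r' ≤ H → D.N 1 r' ≠ D.N v r' → D.Rot r' = D.Rot r

theorem Good.inv {H : Subgroup G} {u : G} (hu : u ∈ H) (h : D.Good H u) : D.Good H u⁻¹ := by
  intro r hr hn
  have h1 : D.N 1 (u • r) ≠ D.N u (u • r) := by
    have := (D.N_smul u 1 u⁻¹ r).not.2 hn
    rw [mul_one, mul_inv_cancel] at this
    exact Ne.symm this
  obtain ⟨h2, h3⟩ := h _ ((D.rot_le_iff hu r).2 hr) h1
  have e : D.Rot (u • r) = D.Rot r := by
    have h4 : u ∈ D.Rot r := by simpa using (D.Rot_smul u r u).1 h2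
    ext x
    rw [D.Rot_smul, mul_mem_cancel_right h4, mul_mem_cancel_left (inv_mem h4)]
  rw [e] at h2 h3
  exact ⟨inv_mem h2, h3⟩

theorem exists_first (H : Subgroup G) (h x : G) (h0 : ∀ r, D.Rot r ≤ H → D.N 1 r = D.N x r)
    (h1 : ∃ r, D.Rot r ≤ H ∧ D.N x r ≠ D.N h r) :
    ∃ x, ∃ s ∈ D.gens, (∀ r, D.Rot r ≤ H → D.N 1 r = D.N x r) ∧
      (∀ r, D.N x r ≠ D.N (x * s) r → D.N x r ≠ D.N h r) ∧
      ∃ r, D.Rot r ≤ H ∧ D.N x r ≠ D.N (x * s) r := by
  induction hn : D.len x h using Nat.strong_induction_on generalizing x with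
  | _ n ih =>
  obtain ⟨r, r1, r2⟩ := h1
  obtain ⟨s, hs, -, s1, s2⟩ := D.step' (x := x) (y := h) (by rintro rfl; exact r2 rfl)
  by_cases h2 : ∃ r, D.Rot r ≤ H ∧ D.N x r ≠ D.N (x * s) r
  · exact ⟨x, s, hs, h0, s1, h2⟩
  push Not at h2
  exact ih _ (hn ▸ s2) (x * s) (fun r hr => (h0 r hr).trans (h2 r hr))
    ⟨r, r1, by rwa [← h2 r r1]⟩ rfl

theorem mem_closure_good (H : Subgroup G) (h : H) :
    h ∈ Subgroup.closure {u : H | D.Good H u} := by
  induction hn : ((D.sep 1 h).filter (D.Rot · ≤ H)).card using Nat.strong_induction_on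
    generalizing h with
  | _ n ih =>
  by_cases h1 : ∃ r, D.Rot r ≤ H ∧ D.N 1 r ≠ D.N h r
  swap
  · exact Subgroup.subset_closure fun r hr h2 => absurd ⟨r, hr, h2⟩ h1
  obtain ⟨x, s, hs, x1, x2, r₀, x3, x4⟩ := D.exists_first H h 1 (fun _ _ => rfl) h1
  have rot : ∀ t ∈ D.gens, ∀ r, D.N x r ≠ D.N (x * t) r →
      ∀ y, y ∈ D.Rot r ↔ x⁻¹ * y * x ∈ D.A t := by
    intro t ht r hr y
    have := (D.N_rel x 1 t r).not
    rw [mul_one] at this
    rw [← D.Rot_gen t ht _ (this.1 hr), ← D.Rot_smul, smul_inv_smul]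
  have far : ∀ v ∈ H, ∀ r, D.Rot r ≤ H → D.N v r = D.N (v * x) r := fun v hv r hr => by
    have := (D.N_rel v 1 x r).2 (x1 _ ((D.rot_le_iff (inv_mem hv) r).2 hr))
    rwa [mul_one] at this
  have same : ∀ v ∈ D.Rot r₀, ∀ r', D.Rot r' ≤ H → D.N 1 r' ≠ D.N v r' →
      D.Rot r' = D.Rot r₀ := by
    intro v hv r' hr' hn'
    have a1 := (rot s hs r₀ x4 v).1 hv
    obtain ⟨a2, a3⟩ := D.A_sub s hs _ a1 (fun e => hn' (by
      have : v = 1 := by
        calc v = x * (x⁻¹ * v * x) * x⁻¹ := by group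
          _ = 1 := by rw [e]; group
      rw [this]))
    ext y
    rw [rot s hs r₀ x4, rot _ a2 r' (by
      rw [← x1 r' hr', ← mul_assoc, ← mul_assoc, mul_inv_cancel, one_mul, ← far v (x3 hv) r' hr']
      exact hn'), a3]
  have u1 : x * s * x⁻¹ ∈ D.Rot r₀ := (rot s hs r₀ x4 _).2 (by
    simpa [mul_assoc] using D.A_self s hs)
  have g : (⟨_, x3 u1⟩ : H) ∈ Subgroup.closure {u : H | D.Good H u} :=
    Subgroup.subset_closure fun r hr h2 => by
      rw [same _ u1 r hr h2]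
      exact ⟨u1, same⟩
  have := ih _ ?_ ((⟨_, x3 u1⟩ : H)⁻¹ * h) rfl
  · have := mul_mem g this
    rwa [mul_inv_cancel_left] at this
  rw [← hn]
  have nu : ∀ r, D.Rot r ≤ H → D.N (x * s * x⁻¹) r = D.N (x * s) r := fun r hr => by
    rw [far _ (x3 u1) r hr, inv_mul_cancel_right]
  refine lt_of_le_of_lt (Finset.card_le_card_of_injOn (fun r => (x * s * x⁻¹) • r)
    (t := ((D.sep 1 h).filter (D.Rot · ≤ H)).erase r₀) (fun r hr => ?_)
      fun a _ b _ e => MulAction.injective _ e) (Finset.card_erase_lt_of_mem ?_)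
  · simp only [Finset.coe_filter, mem_sep, Set.mem_ofPred_eq, Subgroup.coe_mul,
      Subgroup.coe_inv] at hr
    have b1 := (D.N_smul (x * s * x⁻¹) _ _ r).not.2 hr.1
    have b2 := (D.rot_le_iff (x3 u1) r).2 hr.2
    rw [mul_one, mul_inv_cancel_left, nu _ b2] at b1
    simp only [Finset.mem_coe, Finset.mem_erase, Finset.mem_filter, mem_sep]
    generalize (x * s * x⁻¹) • r = t at b1 b2 ⊢
    have b3 := x2 t
    refine ⟨?_, ?_, b2⟩
    · rintro rfl
      revert b1 b3 x4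
      cases D.N x t <;> cases D.N h t <;> cases D.N (x * s) t <;> simp
    · rw [x1 t b2]
      revert b1 b3
      cases D.N x t <;> cases D.N h t <;> cases D.N (x * s) t <;> simp
  · simp only [Finset.mem_filter, mem_sep]
    exact ⟨by rw [x1 _ x3]; exact x2 _ x4, x3⟩

theorem exists_gen {H : Subgroup G} (hfg : H.FG) : ∃ T : Set H, T.Finite ∧
    Subgroup.closure T = ⊤ ∧ (∀ u ∈ insert 1 (T ∪ T⁻¹), D.Good H (u : G)) ∧
    ∀ u ∈ insert 1 (T ∪ T⁻¹), ∀ r, D.Rot r ≤ H → D.N 1 r ≠ D.N u r →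
      ∀ v : H, (v : G) ∈ D.Rot r → v ∈ T := by
  have : Group.FG H := (Group.fg_iff_subgroup_fg H).2 hfg
  obtain ⟨T, hg, hTf, hT⟩ := exists_finite_gen (D.mem_closure_good H)
  let E : Set H := {v | ∃ u ∈ T, ∃ r, D.Rot r ≤ H ∧ D.N 1 r ≠ D.N u r ∧ (v : G) ∈ D.Rot r}
  have hE : E.Finite := by
    refine ((hTf.biUnion fun u _ => (D.fin 1 u).biUnion fun r _ => D.Rot_fin r).preimage
      (f := fun v : H => (v : G)) Subtype.val_injective.injOn).subset ?_
    rintro v ⟨u, hu, r, -, h1, h2⟩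
    exact Set.mem_biUnion hu (Set.mem_biUnion (x := r) h1 h2)
  have key : ∀ u ∈ T ∪ E, ∀ r, D.Rot r ≤ H → D.N 1 r ≠ D.N u r →
      ∃ u ∈ T, ∃ r', D.Rot r' ≤ H ∧ D.N 1 r' ≠ D.N u r' ∧ D.Rot r = D.Rot r' := by
    rintro u (hu | ⟨w, hw, r', h1, h2, h3⟩) r hr hn
    · exact ⟨u, hu, r, hr, hn, rfl⟩
    · exact ⟨w, hw, r', h1, h2, (hg hw r' h1 h2).2 u h3 r hr hn⟩
  have good : ∀ u ∈ T ∪ E, D.Good H (u : G) := by
    rintro u (hu | ⟨w, hw, r', h1, h2, h3⟩)
    · exact hg hu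
    · intro r hr hn
      rw [(hg hw r' h1 h2).2 u h3 r hr hn]
      exact ⟨h3, (hg hw r' h1 h2).2⟩
  have good' : ∀ u ∈ insert 1 ((T ∪ E) ∪ (T ∪ E)⁻¹), D.Good H (u : G) := by
    rintro u (rfl | hu | hu)
    · exact fun r _ hn => absurd rfl hn
    · exact good u hu
    · have := (good _ hu).inv D (SetLike.coe_mem _)
      rwa [Subgroup.coe_inv, inv_inv] at this
  refine ⟨T ∪ E, hTf.union hE, eq_top_iff.2 (hT ▸ Subgroup.closure_mono Set.subset_union_left),
    good', fun u hu r hr hn v hv => ?_⟩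
  have fin : ∀ w ∈ T ∪ E, ∀ r', D.Rot r' ≤ H → D.N 1 r' ≠ D.N w r' → (v : G) ∈ D.Rot r' →
      v ∈ T ∪ E := fun w hw r' h1 h2 h3 => by
    obtain ⟨a, ha, b, b1, b2, b3⟩ := key w hw r' h1 h2
    exact Or.inr ⟨a, ha, b, b1, b2, b3 ▸ h3⟩
  obtain ⟨g1, g2⟩ := good' u hu r hr hn
  rcases hu with rfl | hu | hu
  · exact absurd rfl hn
  · exact fin u hu r hr hn hv
  · have h1 : D.N 1 ((u : G)⁻¹ • r) ≠ D.N (u⁻¹ : H) ((u : G)⁻¹ • r) := by
      have := (D.N_smul (u : G)⁻¹ 1 u r).not.2 hn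
      rw [mul_one, inv_mul_cancel] at this
      exact Ne.symm this
    refine fin _ hu _ ((D.rot_le_iff (inv_mem u.2) r).2 hr) h1 ((D.Rot_smul _ _ _).2 ?_)
    rw [inv_inv]
    exact mul_mem (mul_mem g1 hv) (inv_mem g1)

theorem transport_finite {H : Subgroup G} (hm : AlmostMalnormal H) {r : Ω} (hr : ¬ D.Rot r ≤ H)
    (r' : Ω) : {u : H | (u : G) • r' = r}.Finite := by
  obtain ⟨c, hc, hcH⟩ := SetLike.not_le_iff_exists.1 hr
  refine Set.Finite.of_finite_fibers (fun u : H => (u : G)⁻¹ * c * u)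
    ((D.Rot_fin r').subset ?_) ?_
  · rintro _ ⟨u, hu, rfl⟩
    have hu' : (u : G) • r' = r := hu
    exact (D.Rot_smul _ _ _).1 (hu' ▸ hc)
  · rintro _ ⟨v, -, rfl⟩
    refine ((hm c hcH).preimage (f := fun u : H => ((u * v⁻¹ : H) : G))
      fun a _ b _ e => by simpa using e).subset fun u hu => ⟨(u * v⁻¹).2, ?_⟩
    have hu' : (u : G)⁻¹ * c * u = (v : G)⁻¹ * c * v := hu.2
    have : c⁻¹ * ((u : G) * (v : G)⁻¹) * c = u * (v : G)⁻¹ := by
      calc c⁻¹ * ((u : G) * (v : G)⁻¹) * c = c⁻¹ * u * ((v : G)⁻¹ * c * v) * (v : G)⁻¹ := by group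
        _ = _ := by rw [← hu']; group
    show c⁻¹ * ((u : G) * (v : G)⁻¹) * c ∈ H
    rw [this]
    exact mul_mem u.2 (inv_mem v.2)

theorem window {H : Subgroup G} (hm : AlmostMalnormal H) {T : Set H} (hf : T.Finite)
    (hT : Subgroup.closure T = ⊤) (hg : ∀ u ∈ insert 1 (T ∪ T⁻¹), D.Good H (u : G))
    (hc : ∀ u ∈ insert 1 (T ∪ T⁻¹), ∀ r, D.Rot r ≤ H → D.N 1 r ≠ D.N u r →
      ∀ v : H, (v : G) ∈ D.Rot r → v ∈ T) :
    ∃ n₀ : ℕ, ∀ (p : ℕ → H) (n : ℕ), (∀ k, (p k)⁻¹ * p (k + 1) ∈ insert 1 (T ∪ T⁻¹)) →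
      (∀ i j, i ≤ j → j ≤ n → (SimpleGraph.mulCayley T).dist (p i) (p j) = j - i) →
      ∀ r a b, a ≤ b → b < n → D.N (p a) r ≠ D.N (p (a + 1)) r →
        D.N (p b) r ≠ D.N (p (b + 1)) r → b ≤ a + n₀ := by
  have hf' : (insert 1 (T ∪ T⁻¹)).Finite := (hf.union hf.inv).insert 1
  have hΦ : (⋃ u ∈ insert 1 (T ∪ T⁻¹), {r | D.N 1 r ≠ D.N (u : H) r}).Finite :=
    hf'.biUnion fun u _ => D.fin _ _
  obtain ⟨n₀, hn₀⟩ := Tr.bdd (((hΦ.inter_of_left {r | ¬ D.Rot r ≤ H}).prod hΦ).biUnion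
    fun x hx => D.transport_finite hm hx.1.2 x.2) fun u => (SimpleGraph.mulCayley T).dist 1 u
  refine ⟨n₀, fun p n hs hd r a b hab hb ha' hb' => ?_⟩
  have rel : ∀ k, D.N (p k) r ≠ D.N (p (k + 1)) r →
      D.N 1 ((p k : G)⁻¹ • r) ≠ D.N ((p k)⁻¹ * p (k + 1) : H) ((p k : G)⁻¹ • r) := fun k hk => by
    refine (D.N_rel (p k) _ _ r).not.1 ?_
    simpa using hk
  by_cases hr : D.Rot r ≤ H
  · have hr' : ∀ k, D.Rot ((p k : G)⁻¹ • r) ≤ H := fun k =>
      (D.rot_le_iff (inv_mem (p k).2) r).2 hr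
    have st : ∀ k, D.N (p k) r ≠ D.N (p (k + 1)) r → (p (k + 1) : G) * (p k : G)⁻¹ ∈ D.Rot r := by
      intro k hk
      have := (D.Rot_smul _ _ _).1 (hg _ (hs k) _ (hr' k) (rel k hk)).1
      simpa [mul_assoc] using this
    rcases hab.eq_or_lt with e | e
    · omega
    have m := hc _ (hs a) _ (hr' a) (rel a ha') ((p a)⁻¹ * (p (b + 1) * (p b)⁻¹ * p (a + 1)))
      ((D.Rot_smul _ _ _).2 (by
        have := mul_mem (st b hb') (st a ha')
        simpa [mul_assoc] using this))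
    have a0 : (SimpleGraph.mulCayley T).dist (p a) (p (b + 1) * (p b)⁻¹ * p (a + 1)) ≤ 1 := by
      by_cases h : p a = p (b + 1) * (p b)⁻¹ * p (a + 1)
      · rw [← h]; simp
      · exact (SimpleGraph.dist_eq_one_iff_adj.2
          ((SimpleGraph.mulCayley_adj' T _ _).2 ⟨h, _, m, Or.inl (by simp)⟩)).le
    have a1 := hd a (b + 1) (by omega) (by omega)
    have a2 := hd (a + 1) b (by omega) (by omega)
    have a3 : (SimpleGraph.mulCayley T).dist (p a) (p (b + 1)) ≤ _ + _ :=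
      (Tr.conn hT).dist_triangle (v := p (b + 1) * (p b)⁻¹ * p (a + 1))
    rw [← Tr.dist_mul hT (p (b + 1) * (p b)⁻¹), inv_mul_cancel_right] at a2
    omega
  · have := hn₀ ((p a)⁻¹ * p b) (Set.mem_biUnion (x := (_, _))
      ⟨⟨Set.mem_biUnion (hs a) (rel a ha'), fun h => hr
        ((D.rot_le_iff (inv_mem (p a).2) r).1 h)⟩, Set.mem_biUnion (hs b) (rel b hb')⟩
      (by simp [mul_smul]))
    rw [← Tr.dist_mul hT (p a), mul_one, mul_inv_cancel_left, hd a b hab hb.le] at this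
    omega

theorem lip_len {K : Type} [Group K] {S : Set K} (hf : S.Finite) (hS : Subgroup.closure S = ⊤)
    (f : K →* G) : ∃ A, ∀ x y, D.len (f x) (f y) ≤ A * (SimpleGraph.mulCayley S).dist x y := by
  obtain ⟨A, hA⟩ := Tr.bdd hf fun s => D.len 1 (f s)
  refine ⟨A, Tr.lip hS D.len D.len_self D.len_comm D.len_tri f A fun x s hs => ?_⟩
  have := hA s hs
  rwa [← D.len_mul (f x), mul_one, ← map_mul] at this

include D in
/-- Finitely generated almost malnormal subgroups are undistorted. -/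
theorem undistorted {S : Set G} (hf : S.Finite) (hS : Subgroup.closure S = ⊤)
    {H : Subgroup G} (hfg : H.FG) (hm : AlmostMalnormal H) : Undistorted S H := by
  obtain ⟨T, hTf, hT, hg, hc⟩ := D.exists_gen hfg
  obtain ⟨n₀, hn₀⟩ := D.window hm hTf hT hg hc
  obtain ⟨K, hK⟩ := D.lip_len hTf hT H.subtype
  obtain ⟨A, hA⟩ := D.lip_len hf hS (MonoidHom.id G)
  obtain ⟨L, hL⟩ := Tr.bdd ((D.ball_finite (2 * (K * n₀))).preimage
    (f := fun u : H => (u : G)) Subtype.val_injective.injOn)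
    fun u => (SimpleGraph.mulCayley T).dist 1 u
  have main : ∀ x y : H, (SimpleGraph.mulCayley T).dist x y ≤
      (L + 1) * (D.len x y + 2 * (K * n₀) + 1) := by
    intro x y
    obtain ⟨p, p0, p1, ps, pd⟩ := geod_eq hT x y
    generalize (SimpleGraph.mulCayley T).dist x y = n at p1 pd
    have add : ∀ s t, s ≤ t → t ≤ n → D.len (p 0) (p s) + D.len (p s) (p t) ≤
        D.len (p 0) (p t) + 2 * (K * n₀) := by
      intro s t hst ht
      have a1 := D.len_add_le (p 0) (p s) (p t)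
      have a2 : D.sep (p 0) (p s) ∩ D.sep (p s) (p t) ⊆ D.sep (p (s - n₀)) (p s) := by
        intro r hr
        simp only [Finset.mem_inter, mem_sep] at hr ⊢
        obtain ⟨b, b1, b2, b3⟩ := exists_switch (fun k => D.N (p k) r) hst hr.2
        intro e
        obtain ⟨a, -, a2, a3⟩ := exists_switch (fun k => D.N (p k) r) (Nat.zero_le (s - n₀))
          (fun e' => hr.1 (e'.trans e))
        have := hn₀ p n ps pd r a b (by omega) (by omega) a3 b3
        omega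
      have a3 : _ ≤ D.len _ _ := Finset.card_le_card a2
      have a4 := hK (p (s - n₀)) (p s)
      rw [pd _ _ (by omega) (by omega)] at a4
      have a5 : K * (s - (s - n₀)) ≤ K * n₀ := Nat.mul_le_mul_left K (by omega)
      simp only [Subgroup.subtype_apply] at a4
      omega
    have grow : ∀ a, (L + 1) * a ≤ n → a ≤ D.len (p 0) (p ((L + 1) * a)) := by
      intro a
      induction a with
      | zero => simp
      | succ a ih =>
        intro h
        rw [mul_add, mul_one] at h ⊢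
        have a1 := ih (by omega)
        have a2 := add ((L + 1) * a) ((L + 1) * a + (L + 1)) (by omega) h
        have a3 : ¬ D.len (p ((L + 1) * a)) (p ((L + 1) * a + (L + 1))) ≤
            2 * (K * n₀) := fun h' => by
          have := hL ((p ((L + 1) * a))⁻¹ * p ((L + 1) * a + (L + 1))) (by
            rw [← D.len_mul (p ((L + 1) * a) : G)⁻¹, inv_mul_cancel] at h'
            exact h')
          rw [← Tr.dist_mul hT (p ((L + 1) * a)), mul_one, mul_inv_cancel_left,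
            pd _ _ (by omega) h] at this
          omega
        omega
    have b1 := Nat.mul_div_le n (L + 1)
    have b2 := grow _ b1
    have b3 := add _ n b1 le_rfl
    have b4 := Nat.lt_mul_div_succ n (show 0 < L + 1 by omega)
    rw [p1, p0] at b3
    rw [p0] at b2
    exact b4.le.trans (Nat.mul_le_mul_left _ (by omega))
  refine ⟨T, ((L + 1) * (A + 2 * (K * n₀) + 1) : ℕ), hTf, hT, fun x y => ?_⟩
  have c1 := main x y
  have c2 := hA x y
  simp only [MonoidHom.id_apply] at c2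
  unfold wordDist
  generalize (SimpleGraph.mulCayley S).dist (x : G) y = E at c2 ⊢
  have c3 : (L + 1) * (D.len x y + 2 * (K * n₀) + 1) ≤
      (L + 1) * ((A + 2 * (K * n₀) + 1) * E + (A + 2 * (K * n₀) + 1)) :=
    Nat.mul_le_mul_left _ (by nlinarith [Nat.zero_le ((2 * (K * n₀) + 1) * E)])
  rw [mul_add (L + 1) (_ * E), ← mul_assoc (L + 1)] at c3
  exact_mod_cast c1.trans c3

end RotData

end Pool.Agent.Lib.MP_7eef47_al.C
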