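import Pool.Agent.Lib.MP_7eef47_al.C.Wall
import Pool.Agent.Lib.MP_7eef47_al.U.Transfer

set_option autoImplicit false

namespace Pool.Agent.Lib.MP_7eef47_al.C

open Classical Pool.Agent.Lib.MP_7eef47_al.U

theorem exists_finite_gen {G : Type} [Group G] [Group.FG G] {A : Set G}
    (hA : ∀ g, g ∈ Subgroup.closure A) : ∃ T ⊆ A, T.Finite ∧ Subgroup.closure T = ⊤ := by
  have key : ∀ g ∈ Subgroup.closure A, ∃ T ⊆ A, T.Finite ∧ g ∈ Subgroup.closure T := by
    intro g hg
    induction hg using Subgroup.closure_induction with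
    | mem x hx => exact ⟨{x}, by simpa, Set.finite_singleton x, Subgroup.subset_closure rfl⟩
    | one => exact ⟨∅, by simp, Set.finite_empty, one_mem _⟩
    | mul x y _ _ hx hy =>
      obtain ⟨T, h1, h2, h3⟩ := hx
      obtain ⟨T', h4, h5, h6⟩ := hy
      exact ⟨T ∪ T', Set.union_subset h1 h4, h2.union h5,
        mul_mem (Subgroup.closure_mono Set.subset_union_left h3)
          (Subgroup.closure_mono Set.subset_union_right h6)⟩
    | inv x _ hx =>
      obtain ⟨T, h1, h2, h3⟩ := hx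
      exact ⟨T, h1, h2, inv_mem h3⟩
  choose T h1 h2 h3 using fun g => key g (hA g)
  obtain ⟨S, hS, hf⟩ := Group.fg_iff.1 ‹Group.FG G›
  refine ⟨⋃ g ∈ S, T g, by simpa using fun g _ => h1 g, hf.biUnion fun g _ => h2 g, ?_⟩
  rw [eq_top_iff, ← hS, Subgroup.closure_le]
  exact fun g hg => Subgroup.closure_mono (Set.subset_biUnion_of_mem (u := T) hg) (h3 g)

theorem exists_switch {α : Type} (f : ℕ → α) {a b : ℕ} (hab : a ≤ b) (h : f a ≠ f b) :
    ∃ k, a ≤ k ∧ k < b ∧ f k ≠ f (k + 1) := by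
  induction b, hab using Nat.le_induction with
  | base => exact absurd rfl h
  | succ b hb ih =>
    by_cases h1 : f a = f b
    · exact ⟨b, hb, b.lt_succ_self, h1 ▸ h⟩
    · obtain ⟨k, k1, k2, k3⟩ := ih h1
      exact ⟨k, k1, by omega, k3⟩

theorem geod_eq {G : Type} [Group G] {T : Set G} (hT : Subgroup.closure T = ⊤) (x y : G) :
    ∃ p : ℕ → G, p 0 = x ∧ p ((SimpleGraph.mulCayley T).dist x y) = y ∧
      (∀ k, (p k)⁻¹ * p (k + 1) ∈ insert 1 (T ∪ T⁻¹)) ∧
      ∀ i j, i ≤ j → j ≤ (SimpleGraph.mulCayley T).dist x y →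
        (SimpleGraph.mulCayley T).dist (p i) (p j) = j - i := by
  obtain ⟨p, p0, p1, ps⟩ := Tr.geod hT x y
  have gen : ∀ a : G, ∀ s ∈ T, (SimpleGraph.mulCayley T).dist a (a * s) ≤ 1 := fun a s hs => by
    by_cases h : a = a * s
    · rw [← h]; simp
    · exact (SimpleGraph.dist_eq_one_iff_adj.2
        ((SimpleGraph.mulCayley_adj' T _ _).2 ⟨h, s, hs, Or.inl rfl⟩)).le
  have le : ∀ i j, i ≤ j → (SimpleGraph.mulCayley T).dist (p i) (p j) ≤ j - i := by
    intro i j hij
    induction j, hij using Nat.le_induction with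
    | base => simp
    | succ j hj ih =>
      have a1 : (SimpleGraph.mulCayley T).dist (p i) (p (j + 1)) ≤ _ + _ :=
        (Tr.conn hT).dist_triangle (v := p j)
      have a2 : (SimpleGraph.mulCayley T).dist (p j) (p (j + 1)) ≤ 1 := by
        rcases ps j with e | ⟨s, hs, e | e⟩
        · rw [e]; simp
        · rw [← e]; exact gen _ s hs
        · rw [e, SimpleGraph.dist_comm]; exact gen _ s hs
      omega
  refine ⟨p, p0, p1, fun k => ?_, fun i j hij hj => ?_⟩
  · rcases ps k with e | ⟨s, hs, e | e⟩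
    · rw [e]; simp
    · rw [← e]; simp [hs]
    · rw [e]; simp [hs]
  · have a1 : (SimpleGraph.mulCayley T).dist x y ≤ _ + _ := (Tr.conn hT).dist_triangle (v := p i)
    have a2 : (SimpleGraph.mulCayley T).dist (p i) y ≤ _ + _ :=
      (Tr.conn hT).dist_triangle (v := p j)
    have a3 := le 0 i i.zero_le
    have a4 := le j _ hj
    have a5 := le i j hij
    rw [p0] at a3
    rw [p1] at a4
    omega

variable {B W : Type} [Group W] {M : CoxeterMatrix B} (cs : CoxeterSystem M W)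

theorem ne_iff (x y r : W) : N cs x r ≠ N cs y r ↔ N cs (x⁻¹ * y) (x⁻¹ * r * x) ≠ 0 := by
  have := N_mul cs x (x⁻¹ * y) r
  rw [mul_inv_cancel_left] at this
  rw [this, Ne, left_eq_add]

/-- A geodesic of `H` crosses every wall only during a bounded time. -/
theorem window {H : Subgroup W} (hm : AlmostMalnormal H) {T : Set H} (hf : T.Finite)
    (hT : Subgroup.closure T = ⊤) (hg : ∀ u ∈ T, Good cs H (u : W)) :
    ∃ n₀ : ℕ, ∀ (p : ℕ → H) (n : ℕ), (∀ k, (p k)⁻¹ * p (k + 1) ∈ insert 1 (T ∪ T⁻¹)) →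
      (∀ i j, i ≤ j → j ≤ n → (SimpleGraph.mulCayley T).dist (p i) (p j) = j - i) →
      ∀ r a b, a ≤ b → b < n → N cs (p a) r ≠ N cs (p (a + 1)) r →
        N cs (p b) r ≠ N cs (p (b + 1)) r → b ≤ a + n₀ := by
  have hf' : (insert 1 (T ∪ T⁻¹)).Finite := (hf.union hf.inv).insert 1
  have hΦ : (⋃ u ∈ insert 1 (T ∪ T⁻¹), (sep cs 1 (u : W) : Set W)).Finite :=
    hf'.biUnion fun u _ => Finset.finite_toSet _
  have hU : ∀ r r' : W, r ∉ H → {u : H | u * r' * (u : W)⁻¹ = r}.Finite := by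
    intro r r' hr
    rcases Set.eq_empty_or_nonempty {u : H | u * r' * (u : W)⁻¹ = r} with e | ⟨v, hv⟩
    · rw [e]; exact Set.finite_empty
    refine ((hm r hr).preimage (f := fun u : H => ((u * v⁻¹ : H) : W))
      fun a _ b _ e => by simpa using e).subset fun u hu => ⟨(u * v⁻¹).2, ?_⟩
    have hu' : u * r' * (u : W)⁻¹ = r := hu
    have hv' : v * r' * (v : W)⁻¹ = r := hv
    have : ((u * v⁻¹ : H) : W) * r = r * (u * v⁻¹ : H) := by
      conv_lhs => rw [← hv']
      conv_rhs => rw [← hu']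
      simp [mul_assoc]
    rw [mul_assoc, this, inv_mul_cancel_left]
    exact (u * v⁻¹).2
  obtain ⟨n₀, hn₀⟩ := Tr.bdd (((hΦ.inter_of_left (H : Set W)ᶜ).prod hΦ).biUnion
    fun x hx => hU x.1 x.2 hx.1.2) fun u => (SimpleGraph.mulCayley T).dist 1 u
  refine ⟨n₀, fun p n hs hd r a b hab hb ha' hb' => ?_⟩
  by_cases hr : r ∈ H
  · have st : ∀ k, N cs (p k) r ≠ N cs (p (k + 1)) r → p (k + 1) = ⟨r, hr⟩ * p k := by
      intro k hk
      have g : Good cs H ((p k)⁻¹ * p (k + 1) : H) := by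
        rcases hs k with e | e | e
        · rw [e]; exact fun t _ ht => absurd (N_one cs t) ht
        · exact hg _ e
        · have := (hg _ e).inv cs (SetLike.coe_mem _)
          rwa [Subgroup.coe_inv, inv_inv] at this
      have := g _ (mul_mem (mul_mem (inv_mem (p k).2) hr) (p k).2) ((ne_iff cs _ _ _).1 hk)
      apply Subtype.ext
      rw [mul_assoc, Subgroup.coe_mul, Subgroup.coe_inv, mul_right_inj] at this
      exact this.symm
    rcases hab.eq_or_lt with e | e
    · omega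
    have rr : (⟨r, hr⟩ : H) * ⟨r, hr⟩ = 1 := Subtype.ext (mul_self_of_ne cs ha')
    have a1 := hd a (b + 1) (by omega) (by omega)
    have a2 := hd (a + 1) b (by omega) (by omega)
    rw [← Tr.dist_mul hT ⟨r, hr⟩, ← st a ha', st b hb', ← mul_assoc, rr, one_mul] at a1
    omega
  · have mem : ∀ k, N cs (p k) r ≠ N cs (p (k + 1)) r → ((p k : W))⁻¹ * r * p k ∈
        ⋃ u ∈ insert 1 (T ∪ T⁻¹), (sep cs 1 (u : W) : Set W) := fun k hk =>
      Set.mem_biUnion (hs k) ((mem_sep_one cs).2 ((ne_iff cs _ _ _).1 hk))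
    have := hn₀ ((p a)⁻¹ * p b) (Set.mem_biUnion (x := (_, _)) ⟨⟨mem a ha', fun h => hr (by
      have := mul_mem (mul_mem (p a).2 h) (inv_mem (p a).2)
      simpa [mul_assoc] using this)⟩, mem b hb'⟩ (by simp [mul_assoc]))
    rw [← Tr.dist_mul hT (p a), mul_one, mul_inv_cancel_left, hd a b hab hb.le] at this
    omega

theorem len_add_le (x y z : W) : cs.length (x⁻¹ * y) + cs.length (y⁻¹ * z) ≤
    cs.length (x⁻¹ * z) + 2 * (sep cs x y ∩ sep cs y z).card := by
  rw [← card_sep, ← card_sep, ← card_sep]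
  have h1 := Finset.card_union_add_card_inter (sep cs x y) (sep cs y z)
  have h2 : sep cs x y ∪ sep cs y z ⊆ sep cs x z ∪ (sep cs x y ∩ sep cs y z) := by
    intro r
    simp only [Finset.mem_union, Finset.mem_inter, mem_sep]
    generalize N cs x r = a
    generalize N cs y r = b
    generalize N cs z r = c
    revert a b c
    decide
  have h3 := (Finset.card_le_card h2).trans (Finset.card_union_le _ _)
  omega

theorem ball_finite [Finite B] (n : ℕ) : {w : W | cs.length w ≤ n}.Finite := by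
  refine ((List.finite_length_le B n).image cs.wordProd).subset fun w hw => ?_
  obtain ⟨ω, hω, rfl⟩ := cs.exists_isReduced w
  exact ⟨ω, le_of_eq_of_le (Eq.symm hω) hw, rfl⟩

theorem lip_len {G : Type} [Group G] {S : Set G} (hf : S.Finite) (hS : Subgroup.closure S = ⊤)
    (f : G →* W) : ∃ A, ∀ x y,
      cs.length ((f x)⁻¹ * f y) ≤ A * (SimpleGraph.mulCayley S).dist x y := by
  obtain ⟨A, hA⟩ := Tr.bdd hf fun s => cs.length (f s)
  refine ⟨A, Tr.lip hS (fun x y => cs.length (x⁻¹ * y)) (by simp)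
    (fun x y => by rw [← cs.length_inv]; simp) (fun x y z => ?_) f A fun x s hs => ?_⟩
  · have := cs.length_mul_le (x⁻¹ * y) (y⁻¹ * z)
    rwa [mul_assoc, mul_inv_cancel_left] at this
  · simpa using hA s hs

include cs in
/-- Finitely generated almost malnormal subgroups of Coxeter groups are undistorted. -/
theorem undistorted [Finite B] {S : Set W} (hf : S.Finite) (hS : Subgroup.closure S = ⊤)
    {H : Subgroup W} (hfg : H.FG) (hm : AlmostMalnormal H) : Undistorted S H := by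
  have : Group.FG H := (Group.fg_iff_subgroup_fg H).2 hfg
  obtain ⟨T, hg, hTf, hT⟩ := exists_finite_gen (mem_closure_good cs H)
  obtain ⟨n₀, hn₀⟩ := window cs hm hTf hT hg
  obtain ⟨K, hK⟩ := lip_len cs hTf hT H.subtype
  obtain ⟨A, hA⟩ := lip_len cs hf hS (MonoidHom.id W)
  obtain ⟨L, hL⟩ := Tr.bdd ((ball_finite cs (2 * (K * n₀))).preimage
    (f := fun u : H => (u : W)) Subtype.val_injective.injOn)
    fun u => (SimpleGraph.mulCayley T).dist 1 u
  have main : ∀ x y : H, (SimpleGraph.mulCayley T).dist x y ≤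
      (L + 1) * (cs.length ((x : W)⁻¹ * y) + 2 * (K * n₀) + 1) := by
    intro x y
    obtain ⟨p, p0, p1, ps, pd⟩ := geod_eq hT x y
    generalize (SimpleGraph.mulCayley T).dist x y = n at p1 pd
    have add : ∀ s t, s ≤ t → t ≤ n → cs.length ((p 0 : W)⁻¹ * p s) +
        cs.length ((p s : W)⁻¹ * p t) ≤ cs.length ((p 0 : W)⁻¹ * p t) + 2 * (K * n₀) := by
      intro s t hst ht
      have a1 := len_add_le cs (p 0 : W) (p s) (p t)
      have a2 : sep cs (p 0 : W) (p s) ∩ sep cs (p s : W) (p t) ⊆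
          sep cs (p (s - n₀) : W) (p s) := by
        intro r hr
        simp only [Finset.mem_inter, mem_sep] at hr ⊢
        obtain ⟨b, b1, b2, b3⟩ := exists_switch (fun k => N cs (p k) r) hst hr.2
        intro e
        obtain ⟨a, -, a2, a3⟩ := exists_switch (fun k => N cs (p k) r) (Nat.zero_le (s - n₀))
          (fun e' => hr.1 (e'.trans e))
        have := hn₀ p n ps pd r a b (by omega) (by omega) a3 b3
        omega
      have a3 := Finset.card_le_card a2
      have a4 := hK (p (s - n₀)) (p s)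
      rw [card_sep] at a3
      rw [pd _ _ (by omega) (by omega)] at a4
      have a5 : K * (s - (s - n₀)) ≤ K * n₀ := Nat.mul_le_mul_left K (by omega)
      simp only [Subgroup.subtype_apply] at a4
      omega
    have grow : ∀ a, (L + 1) * a ≤ n → a ≤ cs.length ((p 0 : W)⁻¹ * p ((L + 1) * a)) := by
      intro a
      induction a with
      | zero => simp
      | succ a ih =>
        intro h
        rw [mul_add, mul_one] at h ⊢
        have a1 := ih (by omega)
        have a2 := add ((L + 1) * a) ((L + 1) * a + (L + 1)) (by omega) h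
        have a3 : ¬ cs.length ((p ((L + 1) * a) : W)⁻¹ * p ((L + 1) * a + (L + 1))) ≤
            2 * (K * n₀) := fun h' => by
          have := hL ((p ((L + 1) * a))⁻¹ * p ((L + 1) * a + (L + 1))) h'
          rw [← Tr.dist_mul hT (p ((L + 1) * a)), mul_one, mul_inv_cancel_left,
            pd _ _ (by omega) h] at this
          omega
        omega
    have b1 := Nat.mul_div_le n (L + 1)
    have b2 := grow _ b1
    have b3 := add _ n b1 le_rfl
    have b4 := Nat.lt_mul_div_succ n (show 0 < L + 1 by omega)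
    rw [p1, p0] at b3
    rw [p0] at b2
    exact b4.le.trans (Nat.mul_le_mul_left _ (by omega))
  refine ⟨T, ((L + 1) * (A + 2 * (K * n₀) + 1) : ℕ), hTf, hT, fun x y => ?_⟩
  have c1 := main x y
  have c2 := hA x y
  simp only [MonoidHom.id_apply] at c2
  unfold wordDist
  generalize (SimpleGraph.mulCayley S).dist (x : W) y = D at c2 ⊢
  have c3 : (L + 1) * (cs.length ((x : W)⁻¹ * y) + 2 * (K * n₀) + 1) ≤
      (L + 1) * ((A + 2 * (K * n₀) + 1) * D + (A + 2 * (K * n₀) + 1)) :=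
    Nat.mul_le_mul_left _ (by nlinarith [Nat.zero_le ((2 * (K * n₀) + 1) * D)])
  rw [mul_add (L + 1) (_ * D), ← mul_assoc (L + 1)] at c3
  exact_mod_cast c1.trans c3

theorem undistorted_of_finiteIndex {G : Type} [Group G] (G₁ : Subgroup G) [G₁.FiniteIndex]
    {S₁ : Set G₁} (hS₁ : Subgroup.closure S₁ = ⊤) {S : Set G} (hf : S.Finite)
    (hS : Subgroup.closure S = ⊤) {H : Subgroup G} (hfg : H.FG)
    (hU : Undistorted S₁ (H.subgroupOf G₁)) : Undistorted S H := by
  obtain ⟨T₁, K₁, hT₁f, hT₁, hK₁⟩ := hU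
  obtain ⟨K, hK⟩ := exists_nat_ge K₁
  obtain ⟨T, hT, hTf⟩ := Group.fg_iff.1 ((Group.fg_iff_subgroup_fg H).2 hfg)
  obtain ⟨t, ht1, -, ht3, ht⟩ := Tr.exists_rep G₁ H
  obtain ⟨ψ, hψ⟩ : ∃ ψ : G → G₁, ∀ g, (ψ g : G) = g * (t g)⁻¹ :=
    ⟨fun g => ⟨_, ht1 g⟩, fun _ => rfl⟩
  obtain ⟨A, hA⟩ := Tr.bdd (((ht.prod (hf.prod ht)).image
    fun p : G × G × G => p.1 * p.2.1 * p.2.2⁻¹).preimage (f := fun k : G₁ => (k : G))
      Subtype.val_injective.injOn) fun k => (SimpleGraph.mulCayley S₁).dist 1 k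
  have lipA := Tr.lip hS (SimpleGraph.mulCayley S₁).dist (fun _ => SimpleGraph.dist_self)
    (fun _ _ => SimpleGraph.dist_comm) (fun _ _ _ => (Tr.conn hS₁).dist_triangle) ψ A
    fun g s hs => by
      rw [← Tr.dist_mul hS₁ (ψ g)⁻¹, inv_mul_cancel]
      refine hA _ ⟨(t g, s, t (g * s)), ⟨⟨_, rfl⟩, hs, ⟨_, rfl⟩⟩, ?_⟩
      simp only [Subgroup.coe_mul, Subgroup.coe_inv, hψ]
      group
  let j : H.subgroupOf G₁ →* H :=
    (G₁.subtype.comp (H.subgroupOf G₁).subtype).codRestrict H fun x => x.2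
  obtain ⟨C, hC⟩ := Tr.bdd hT₁f fun u => (SimpleGraph.mulCayley T).dist 1 (j u)
  have lipC := Tr.lip hT₁ (SimpleGraph.mulCayley T).dist (fun _ => SimpleGraph.dist_self)
    (fun _ _ => SimpleGraph.dist_comm) (fun _ _ _ => (Tr.conn hT).dist_triangle) j C
    fun g s hs => by
      rw [← Tr.dist_mul hT (j g)⁻¹, inv_mul_cancel, map_mul, inv_mul_cancel_left]
      exact hC s hs
  obtain ⟨E, hE⟩ := Tr.bdd (ht.preimage (f := fun k : H => (k : G)) Subtype.val_injective.injOn)
    fun k => (SimpleGraph.mulCayley T).dist 1 k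
  have mem : ∀ x : H, ψ x ∈ H.subgroupOf G₁ := fun x => Subgroup.mem_subgroupOf.2 (by
    rw [hψ]; exact mul_mem x.2 (inv_mem (ht3 _ x.2)))
  have near : ∀ x : H, (SimpleGraph.mulCayley T).dist (j ⟨ψ x, mem x⟩) x ≤ E := fun x => by
    rw [← Tr.dist_mul hT (j ⟨ψ x, mem x⟩)⁻¹, inv_mul_cancel]
    refine hE _ ⟨x, ?_⟩
    show t x = ((ψ x : G))⁻¹ * x
    rw [hψ]; group
  refine ⟨T, (C * K * A + C * K + 2 * E : ℕ), hTf, hT, fun x y => ?_⟩
  have a1 : (SimpleGraph.mulCayley T).dist x y ≤ _ + _ :=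
    (Tr.conn hT).dist_triangle (v := j ⟨ψ x, mem x⟩)
  have a2 : (SimpleGraph.mulCayley T).dist (j ⟨ψ x, mem x⟩) y ≤ _ + _ :=
    (Tr.conn hT).dist_triangle (v := j ⟨ψ y, mem y⟩)
  have a3 := near x
  have a4 := near y
  have a5 := lipC ⟨ψ x, mem x⟩ ⟨ψ y, mem y⟩
  have a6 := hK₁ ⟨ψ x, mem x⟩ ⟨ψ y, mem y⟩
  have a7 := lipA x y
  rw [SimpleGraph.dist_comm] at a3
  unfold wordDist at a6 ⊢
  simp only at a6
  generalize (SimpleGraph.mulCayley S).dist (x : G) y = D at a7 ⊢
  generalize (SimpleGraph.mulCayley S₁).dist (ψ x) (ψ y) = D₁ at a6 a7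
  generalize (SimpleGraph.mulCayley T₁).dist ⟨ψ x, mem x⟩ ⟨ψ y, mem y⟩ = D₂ at a5 a6
  have b1 : D₂ ≤ K * D₁ + K := by
    have : (0 : ℝ) ≤ D₁ := Nat.cast_nonneg _
    exact_mod_cast (by nlinarith : (D₂ : ℝ) ≤ K * D₁ + K)
  have b2 : C * D₂ ≤ C * (K * (A * D) + K) :=
    Nat.mul_le_mul_left C (b1.trans (Nat.add_le_add_right (Nat.mul_le_mul_left K a7) K))
  have b3 : C * (K * (A * D) + K) + 2 * E ≤
      (C * K * A + C * K + 2 * E) * D + (C * K * A + C * K + 2 * E) := by
    nlinarith [Nat.zero_le ((C * K + 2 * E) * D), Nat.zero_le (C * K * A)]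
  exact_mod_cast (by omega : (SimpleGraph.mulCayley T).dist x y ≤
    (C * K * A + C * K + 2 * E) * D + (C * K * A + C * K + 2 * E))

/-- The same for groups with a Coxeter group of finite index. -/
theorem undistorted_virt [Finite B] {G : Type} [Group G] (G₁ : Subgroup G) [G₁.FiniteIndex]
    (cs : CoxeterSystem M G₁) {S : Set G} (hf : S.Finite) (hS : Subgroup.closure S = ⊤)
    {H : Subgroup G} (hfg : H.FG) (hm : AlmostMalnormal H) : Undistorted S H := by
  have : Group.FG H := (Group.fg_iff_subgroup_fg H).2 hfg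
  have fg : Group.FG (H.subgroupOf G₁) := Group.fg_of_surjective
    (f := ((H.subtype.comp (G₁.subgroupOf H).subtype).codRestrict G₁ fun x => x.2).codRestrict
      (H.subgroupOf G₁) fun x => x.1.2) fun x => ⟨⟨⟨x.1.1, x.2⟩, x.1.2⟩, rfl⟩
  refine undistorted_of_finiteIndex G₁ cs.subgroup_closure_range_simple hf hS hfg
    (undistorted cs (Set.finite_range _) cs.subgroup_closure_range_simple
      ((Group.fg_iff_subgroup_fg _).1 fg) fun g hg => ?_)
  exact ((hm g hg).preimage (f := fun k : G₁ => (k : G)) Subtype.val_injective.injOn).subset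
    fun x hx => hx

theorem centralizerFinite {G : Type} [Group G] {H : Subgroup G} (hm : AlmostMalnormal H) :
    CentralizerFinite H := by
  intro h hh ho
  refine ⟨{1}, Set.finite_singleton _, fun g hg => ⟨1, rfl, ?_⟩⟩
  rw [inv_one, mul_one]
  by_contra hn
  refine Set.infinite_of_injective_forall_mem (injective_pow_iff_not_isOfFinOrder.2 ho)
    (s := {x : G | x ∈ H ∧ g⁻¹ * x * g ∈ H}) (fun n => ⟨pow_mem hh n, ?_⟩) (hm g hn)
  rw [mul_assoc, ← (Commute.pow_right hg n).eq, inv_mul_cancel_left]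
  exact pow_mem hh n

end Pool.Agent.Lib.MP_7eef47_al.C
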