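import Mathlib

set_option autoImplicit false

namespace Pool.Agent.Lib.MP_7eef47_al.C

open Classical

variable {B W : Type} [Group W] {M : CoxeterMatrix B} (cs : CoxeterSystem M W)

theorem conj_iff (i : B) (r t : W) :
    cs.simple i * r * cs.simple i = t ↔ r = cs.simple i * t * cs.simple i := by
  constructor <;> rintro rfl <;> simp [mul_assoc]

/-- The sign action of a generator. -/
noncomputable def sg (i : B) (x : W × ZMod 2) : W × ZMod 2 :=
  (cs.simple i * x.1 * cs.simple i, x.2 + if x.1 = cs.simple i then 1 else 0)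

theorem sg_invol (i : B) : Function.Involutive (sg cs i) := by
  rintro ⟨r, e⟩
  simp only [sg, conj_iff, Prod.mk.injEq, true_and, cs.simple_mul_simple_self, one_mul]
  rw [add_assoc, CharTwo.add_self_eq_zero, add_zero]

theorem sg_pow (i j : B) (k : ℕ) (r : W) (e : ZMod 2) :
    (((sg_invol cs i).toPerm * (sg_invol cs j).toPerm) ^ k) (r, e) =
      ((cs.simple i * cs.simple j) ^ k * r * ((cs.simple i * cs.simple j) ^ k)⁻¹,
        e + ∑ b ∈ Finset.range (2 * k),
          if r = cs.simple j * (cs.simple i * cs.simple j) ^ b then 1 else 0) := by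
  induction k with
  | zero => simp
  | succ k ih =>
    have h1 : ∀ a : ℕ, ((cs.simple i * cs.simple j) ^ a)⁻¹ * cs.simple j =
        cs.simple j * (cs.simple i * cs.simple j) ^ a := fun a => by
      rw [← inv_pow, mul_inv_rev, cs.inv_simple, cs.inv_simple]
      exact (mul_pow_mul _ _ _)
    have h2 : ∀ (a : ℕ) (t : W), (cs.simple i * cs.simple j) ^ k * r *
        ((cs.simple i * cs.simple j) ^ k)⁻¹ = cs.simple j * (cs.simple i * cs.simple j) ^ a ↔
        r = cs.simple j * (cs.simple i * cs.simple j) ^ (2 * k + a) := fun a _ => by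
      rw [mul_inv_eq_iff_eq_mul, ← eq_inv_mul_iff_mul_eq, ← mul_assoc, ← mul_assoc, h1, mul_assoc,
        mul_assoc, ← pow_add, ← pow_add, show k + (a + k) = 2 * k + a by omega]
    rw [pow_succ', Equiv.Perm.mul_apply, ih, Equiv.Perm.mul_apply]
    simp only [Function.Involutive.coe_toPerm, sg, conj_iff cs j _ (cs.simple i)]
    rw [show 2 * (k + 1) = 2 * k + 1 + 1 by omega, Finset.sum_range_succ, Finset.sum_range_succ]
    have a0 := h2 0 1
    have a1 := h2 1 1
    rw [pow_zero, mul_one, add_zero] at a0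
    rw [pow_one, ← mul_assoc] at a1
    simp only [a0, a1, Prod.mk.injEq, add_assoc, and_true]
    rw [pow_succ', mul_inv_rev, mul_inv_rev, cs.inv_simple, cs.inv_simple]
    simp only [mul_assoc]

theorem sg_liftable : M.IsLiftable fun i => (sg_invol cs i).toPerm := by
  intro i j
  ext1 ⟨r, e⟩
  rw [sg_pow, two_mul, Finset.sum_range_add]
  simp only [pow_add, cs.simple_mul_simple_pow, one_mul, inv_one, mul_one,
    CharTwo.add_self_eq_zero, add_zero, Equiv.Perm.one_apply]

/-- The sign representation. -/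
noncomputable def sgn : W →* Equiv.Perm (W × ZMod 2) := cs.lift ⟨_, sg_liftable cs⟩

theorem sgn_s (i : B) (x : W × ZMod 2) : sgn cs (cs.simple i) x = sg cs i x := by
  rw [sgn, cs.lift_apply_simple]; rfl

theorem sgn_apply (w r : W) (e : ZMod 2) :
    sgn cs w (r, e) = (w * r * w⁻¹, e + (sgn cs w (r, 0)).2) := by
  induction w using cs.simple_induction_right generalizing r e with
  | one => simp
  | mul_simple_right w i ih =>
    simp only [map_mul, Equiv.Perm.mul_apply, sgn_s, sg]
    rw [ih, ih _ (0 + _), mul_inv_rev, cs.inv_simple]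
    simp [mul_assoc, add_assoc]

/-- `N w r` is `1` when the wall of `r` separates `1` from `w`. -/
noncomputable def N (w r : W) : ZMod 2 := (sgn cs w (w⁻¹ * r * w, 0)).2

theorem N_one (r : W) : N cs 1 r = 0 := by simp [N]

theorem N_mul (u v r : W) : N cs (u * v) r = N cs u r + N cs v (u⁻¹ * r * u) := by
  simp only [N, map_mul, Equiv.Perm.mul_apply]
  rw [sgn_apply cs v, sgn_apply cs u]
  simp [mul_assoc, add_comm]

theorem N_s (i : B) (r : W) : N cs (cs.simple i) r = if r = cs.simple i then 1 else 0 := by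
  simp only [N, sgn_s, sg, cs.inv_simple, conj_iff, cs.simple_mul_simple_self, one_mul, zero_add]

theorem N_mul_s (w : W) (i : B) (r : W) :
    N cs (w * cs.simple i) r = N cs w r + if r = w * cs.simple i * w⁻¹ then 1 else 0 := by
  rw [N_mul, N_s]
  congr 2
  apply propext
  constructor
  · intro h; rw [← h]; group
  · intro h; rw [h]; group

theorem N_inv (w r : W) : N cs w⁻¹ r = N cs w (w * r * w⁻¹) := by
  have := N_mul cs w⁻¹ w r
  rw [inv_mul_cancel, N_one, inv_inv] at this
  exact CharTwo.add_eq_zero.1 this.symm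

theorem two_cases (a : ZMod 2) : a = 0 ∨ a = 1 := by revert a; decide

theorem N_word : ∀ ω : List B, (cs.leftInvSeq ω).Nodup → ∀ r,
    (N cs (cs.wordProd ω) r ≠ 0 ↔ r ∈ cs.leftInvSeq ω)
  | [], _, r => by simp [N_one]
  | i :: ω, h, r => by
    rw [CoxeterSystem.leftInvSeq, List.nodup_cons] at h
    have ih := N_word ω (List.Nodup.of_map _ h.2) ((cs.simple i)⁻¹ * r * cs.simple i)
    have e : r ∈ List.map (MulAut.conj (cs.simple i)) (cs.leftInvSeq ω) ↔
        (cs.simple i)⁻¹ * r * cs.simple i ∈ cs.leftInvSeq ω := by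
      rw [List.mem_map]
      constructor
      · rintro ⟨a, ha, rfl⟩
        simpa [mul_assoc] using ha
      · intro ha
        exact ⟨_, ha, by simp [mul_assoc]⟩
    rw [CoxeterSystem.wordProd_cons, CoxeterSystem.leftInvSeq, List.mem_cons, e, ← ih, N_mul, N_s]
    by_cases hr : r = cs.simple i
    · have : ¬ N cs (cs.wordProd ω) ((cs.simple i)⁻¹ * r * cs.simple i) ≠ 0 := by
        rw [ih, ← e, hr]; exact h.1
      rw [not_not.1 this]
      simp [hr]
    · simp [hr]

/-- The walls that separate `x` from `y`: as many as the word distance, all of them involutions. -/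
theorem exists_sep (x y : W) : ∃ F : Finset W, F.card = cs.length (x⁻¹ * y) ∧
    (∀ r, r ∈ F ↔ N cs x r ≠ N cs y r) ∧ ∀ r ∈ F, r * r = 1 := by
  obtain ⟨ω, hω, e⟩ := cs.exists_isReduced (x⁻¹ * y)
  have hn := hω.nodup_leftInvSeq
  refine ⟨(cs.leftInvSeq ω).toFinset.image fun t => x * t * x⁻¹, ?_, fun r => ?_, fun r hr => ?_⟩
  · rw [Finset.card_image_of_injective, List.toFinset_card_of_nodup hn,
      CoxeterSystem.length_leftInvSeq, e, hω]
    intro a b h
    simpa using h
  · have := N_mul cs x (x⁻¹ * y) r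
    rw [mul_inv_cancel_left] at this
    rw [this, Ne, left_eq_add, ← Ne, e, N_word cs ω hn, Finset.mem_image]
    constructor
    · rintro ⟨t, ht, rfl⟩
      have : x⁻¹ * (x * t * x⁻¹) * x = t := by group
      rw [this]; exact List.mem_toFinset.1 ht
    · intro h
      exact ⟨_, List.mem_toFinset.2 h, by group⟩
  · obtain ⟨t, ht, rfl⟩ := Finset.mem_image.1 hr
    exact ((cs.isReflection_of_mem_leftInvSeq ω (List.mem_toFinset.1 ht)).conj x).mul_self

/-- The set of separating walls. -/
noncomputable def sep (x y : W) : Finset W := (exists_sep cs x y).choose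

theorem card_sep (x y : W) : (sep cs x y).card = cs.length (x⁻¹ * y) :=
  (exists_sep cs x y).choose_spec.1

theorem mem_sep {x y r : W} : r ∈ sep cs x y ↔ N cs x r ≠ N cs y r :=
  (exists_sep cs x y).choose_spec.2.1 r

theorem mul_self_of_ne {x y r : W} (h : N cs x r ≠ N cs y r) : r * r = 1 :=
  (exists_sep cs x y).choose_spec.2.2 r ((mem_sep cs).2 h)

theorem mem_sep_one {w r : W} : r ∈ sep cs 1 w ↔ N cs w r ≠ 0 := by
  rw [mem_sep, N_one, ne_comm]

theorem N_descent {w : W} {i : B} (h : cs.IsRightDescent w i) :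
    N cs (w * cs.simple i) (w * cs.simple i * w⁻¹) = 0 := by
  by_contra hn
  have : sep cs 1 w ⊆ sep cs 1 (w * cs.simple i) := fun r hr => by
    rw [mem_sep_one] at hr ⊢
    by_cases e : r = w * cs.simple i * w⁻¹
    · rwa [e]
    · rwa [N_mul_s, if_neg e, add_zero]
  have h1 := Finset.card_le_card this
  rw [card_sep, card_sep, inv_one, one_mul, one_mul] at h1
  exact absurd h (not_lt.2 h1)

/-- `u` crosses no wall of a reflection in `H` except possibly its own. -/
def Good (H : Subgroup W) (u : W) : Prop := ∀ r ∈ H, N cs u r ≠ 0 → r = u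

theorem Good.inv {H : Subgroup W} {u : W} (hu : u ∈ H) (h : Good cs H u) : Good cs H u⁻¹ := by
  intro r hr hn
  have h2 : r * r = 1 := mul_self_of_ne cs (x := u⁻¹) (y := 1) (by rwa [N_one])
  rw [N_inv] at hn
  have := h _ (mul_mem (mul_mem hu hr) (inv_mem hu)) hn
  have e : r = u := by
    apply mul_left_cancel (a := u)
    rw [mul_inv_eq_iff_eq_mul.1 this]
  rw [← e]
  exact eq_inv_of_mul_eq_one_left h2

/-- The first wall of a reflection in `H` along a geodesic. -/
theorem exists_first (H : Subgroup W) (w : W) (h : ∃ r ∈ H, N cs w r ≠ 0) :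
    ∃ t ∈ H, N cs w t ≠ 0 ∧ ∀ r ∈ H, N cs t r = if r = t then 1 else 0 := by
  induction hn : cs.length w using Nat.strong_induction_on generalizing w with
  | _ n ih =>
  obtain ⟨r, hr, h1⟩ := h
  obtain ⟨i, hi⟩ := cs.exists_rightDescent_of_ne_one (w := w) (by
    rintro rfl; exact h1 (N_one cs r))
  have h0 := N_descent cs hi
  have hw : ∀ t, N cs w t = N cs (w * cs.simple i) t +
      if t = w * cs.simple i * w⁻¹ then 1 else 0 := fun t => by
    rw [N_mul_s, add_assoc, CharTwo.add_self_eq_zero, add_zero]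
  by_cases h2 : ∃ r ∈ H, N cs (w * cs.simple i) r ≠ 0
  · obtain ⟨t, ht, t1, t2⟩ := ih _ (hn ▸ hi) _ h2 rfl
    refine ⟨t, ht, ?_, t2⟩
    rwa [hw, if_neg (by rintro rfl; exact t1 h0), add_zero]
  push Not at h2
  have e : r = w * cs.simple i * w⁻¹ := by
    by_contra e
    exact h1 (by rw [hw, if_neg e, h2 r hr, add_zero])
  refine ⟨r, hr, h1, fun t ht => ?_⟩
  have e2 : r = w * cs.simple i * cs.simple i * (w * cs.simple i)⁻¹ := by
    rw [e, mul_inv_rev, cs.inv_simple]; simp [mul_assoc]
  have e3 : w * cs.simple i * ((w * cs.simple i * cs.simple i)⁻¹ * t *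
      (w * cs.simple i * cs.simple i)) * (w * cs.simple i)⁻¹ = r⁻¹ * t * r := by
    rw [e2]; group
  conv_lhs => rw [e2]
  rw [N_mul, N_inv, e3, h2 _ (mul_mem (mul_mem (inv_mem hr) ht) hr), N_mul_s, h2 t ht, ← e2]
  simp

theorem mem_closure_good (H : Subgroup W) (h : H) :
    h ∈ Subgroup.closure {u : H | Good cs H u} := by
  induction hn : ((sep cs 1 h).filter (· ∈ H)).card using Nat.strong_induction_on
    generalizing h with
  | _ n ih =>
  by_cases h1 : ∃ r ∈ H, N cs h r ≠ 0
  swap
  · exact Subgroup.subset_closure fun r hr h2 => absurd ⟨r, hr, h2⟩ h1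
  obtain ⟨t, ht, t1, t2⟩ := exists_first cs H h h1
  have tt : t * t = 1 := mul_self_of_ne cs (x := h) (y := 1) (by rwa [N_one])
  have ti : t⁻¹ = t := inv_eq_of_mul_eq_one_left tt
  have g : (⟨t, ht⟩ : H) ∈ Subgroup.closure {u : H | Good cs H u} :=
    Subgroup.subset_closure fun r hr h2 => by
      by_contra e
      exact h2 (by rw [t2 r hr, if_neg e])
  have := ih _ ?_ (⟨t, ht⟩ * h) rfl
  · have := mul_mem (inv_mem g) this
    rwa [inv_mul_cancel_left] at this
  rw [← hn]
  refine lt_of_le_of_lt (Finset.card_le_card_of_injOn (fun r => t⁻¹ * r * t)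
    (t := ((sep cs 1 h).filter (· ∈ H)).erase t) (fun r hr => ?_) fun a _ b _ e => by
      simpa using e) (Finset.card_erase_lt_of_mem ?_)
  · simp only [Finset.coe_filter, mem_sep_one, Set.mem_ofPred_eq, Subgroup.coe_mul] at hr
    rw [N_mul, t2 r hr.2] at hr
    have hne : r ≠ t := by
      rintro rfl
      rw [if_pos rfl, inv_mul_cancel, one_mul, (two_cases _).resolve_left t1] at hr
      exact hr.1 (by decide)
    rw [if_neg hne, zero_add] at hr
    simp only [Finset.mem_coe, Finset.mem_erase, Finset.mem_filter, mem_sep_one]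
    refine ⟨fun e => hne ?_, hr.1, mul_mem (mul_mem (inv_mem ht) hr.2) ht⟩
    rw [mul_eq_right, inv_mul_eq_one] at e
    exact e.symm
  · simp only [Finset.mem_filter, mem_sep_one]
    exact ⟨t1, ht⟩

end Pool.Agent.Lib.MP_7eef47_al.C
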